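import Pool.Agent.helper45.TF.Defs2

/-!
# The data of the flexible tight surface of genus 3 (29 vertices, 66 triangles)
-/

namespace Pool.Agent.helper45.TF

/-- the 66 triangles as bit masks -/
def masks : List ℕ := [
  11, 134217731, 37, 33554437, 41, 71303169, 138412033, 50331649,
  83886081, 22, 268435462, 26, 75497474, 142606338, 100663298, 301989890,
  52, 41943044, 75497476, 335544324, 88, 296, 328, 176,
  208, 416, 704, 2368, 2624, 1408, 1664, 3328,
  5632, 18944, 20992, 11264, 13312, 26624, 45056, 151552,
  167936, 90112, 106496, 212992, 360448, 1212416, 1343488, 720896,
  851968, 1703936, 2883584, 9699328, 10747904, 5767168, 6815744, 13631488,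
  274726912, 44040192, 304087040, 29360128, 54525952, 171966464, 339738624, 159383552,
  218103808, 234881024]

/-- the set of vertices of a bit mask -/
def maskSet (m : ℕ) : Finset (Fin 29) := Finset.univ.filter (fun v => m.testBit v.val = true)

/-- the triangles -/
def faceSet : Finset (Finset (Fin 29)) := (masks.map maskSet).toFinset

/-- the integer point of the configuration space: 72 coordinates of the 24 tube vertices, 21
coordinates of normal or direction vectors, 14 multipliers -/
def zList : List ℤ := [
  -267752278169647949177500, -1056916887511768220437500, 422766755004707288175000, -611602572240143210226500,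
  -648242357673884508535000, 2395678278360007966325000, -98645576167765033907500, -467861875538542732247000,
  411492974871248427157000, -234165706292657928088300, -933147655634008335601080, 393423624187929374599560,
  -61229342753031720767500, -347854809248052502896500, 450303146393589451963000, -156469552578965634508500,
  -701527475966278244483200, 354272426930314849106150, -155734773543485026790900, -699764006281124785960960,
  368968007639927003458150, -387967812436937432700, -270938156946188371219580, 302269597421379929341000,
  -74579867086688529465900, -379896067648828843772660, 183292659720453277995000, -23359895952390242235900,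
  -353944615607451044909460, 289830199679793715433400, 99554088456950864673300, -137042225467899087294868,
  109159723531367590579134, -84171317806687121637900, -313388387609941797883548, 128000229433339546194184,
  104174736605740477505556, -130984971683913203697932, 100614274049637629630440, 27878153875883783280900,
  -72561250368450324184340, -48708450874248996867400, -82589554748722841227044, -303824727951926684569612,
  121909264063430046047390, 310179860922974005266324, 140884524855021930907169, -253546872563182877451507,
  -52850629273786459358404, -91728630214031469481942, -17154750360007573017530, 120569165536833626695628,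
  -95734003283687785038022, 20809807871463385693646, -55880049965059597421620, 58659060280468786064570,
  -111527103754956532394290, 325471232426688573033284, 127504574789271684111079, -242078343935396951626287,
  485005226816402741467144, 227385840501238003819374, -361995675979112121933392, 113563963005783191848924,
  103572085897698153946634, -176275044073802347124282, 634108303645409645807384, 288655178150625200474238,
  -456521280560191154008792, -811243407618423703291238, 2078289725264454810986254, -1214984190375499419691881,
  30, 103, 4, 5,
  12, 100, 75, 38,
  156, 26, -30, -21,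
  4, -1, 3, 8,
  -7, 6, -6, -2,
  3, 4517337670829763139360, -6884097847220540947000, 2670104866731361739680,
  -146955807096121543520, 1117111333256669122736, -682932948457310496400, 478702914797480092356,
  595583110598454416256, 39256341469881734215990, -23172752915237460853682, 22056151937736653014656,
  -1911421437964320970870, -61906877301769924936370, 114998058935078207204834]

/-- coordinates of the five other vertices -/
def outList : List ℤ := [
  4086745298378837119025000, -845533510009414576350000, -4368589801715308644475000,
  -845533510009414576350000, -8314412848425910000775000, 9864557616776503390750000,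
  -2536600530028243729050000, 3523056291705894068125000, -5073201060056487458100000,
  -1409222516682357627250000, 5777812318397666271725000, 563689006672943050900000,
  112737801334588610180000, 98645576167765033907500, -169106702001882915270000]

/-- the integer point, extended by `1` -/
def zZ (i : ℕ) : ℤ := zList.getD i 1

/-- the real point -/
noncomputable def zR (i : Fin 107) : ℝ := (zZ i.val : ℝ)

/-- the coordinates (`3 v + k` is the coordinate `k` of the vertex `v`) in terms of the variables -/
def coordOf {R : Type} [CommRing R] (z : ℕ → R) (i : ℕ) : R :=
  if i < 72 then z i else ((outList.getD (i - 72) 0 : ℤ) : R)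

/-- the positions of the vertices in terms of the variables -/
noncomputable def posOf (z : ℕ → ℝ) (v : Fin 29) : E3 :=
  WithLp.toLp 2 (fun k : Fin 3 => coordOf z (3 * v.val + k.val))

/-- the surface -/
noncomputable def p0 : Fin 29 → E3 := posOf (extOne zR)

/-- the equations of the seven octahedra -/
def oct0 : List QForm := blockP 6 0 3 9 12 15 93 72

def oct1 : List QForm := blockP 12 15 9 24 18 21 95 75

def oct2 : List QForm := blockP 21 24 18 33 27 30 97 78

def oct3 : List QForm := blockL 27 30 33 39 42 36 99 81

def oct4 : List QForm := blockP 36 39 42 48 51 45 101 84

def oct5 : List QForm := blockP 51 45 48 54 57 60 103 87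

def oct6 : List QForm := blockP 60 54 57 63 66 69 105 90

/-- normalization: the triangle `t 0` and one coordinate of every normal vector are fixed -/
def sysFix : List QForm := [0, 1, 2, 3, 4, 5, 6, 7, 8, 73, 77, 80, 82, 84, 87, 90].map qFix

/-- closing: six coordinates of the triangle `t 7` -/
def sysEnd : List QForm := [63, 64, 65, 66, 67, 69].map qFix

/-- the whole system: 106 equations in 107 unknowns -/
def sysL : List QForm := sysFix ++ oct0 ++ oct1 ++ oct2 ++ oct3 ++ oct4 ++ oct5 ++ oct6 ++ sysEnd

/-- the system as a map -/
def sysQ (i : Fin 106) : QForm := sysL.getD i.val []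

/-- the system -/
noncomputable def sysMap (z : Fin 107 → ℝ) (i : Fin 106) : ℝ := evQ (sysQ i) (extOne z)

/-! ### statements of the data modules -/

/-- the triangulated surface: closed, connected, orientable -/
def SURF_stmt : Prop := ∃ S : ClosedSurface (Fin 29), S.faces = faceSet ∧ S.Orientable ∧
  S.faces.card = 66

/-- saddle vertices -/
def SAD_stmt : Prop := ∀ S : ClosedSurface (Fin 29), S.faces = faceSet →
  SaddleHull S p0 {24, 25, 26, 27}

/-- general position around the vertices -/
def GS_stmt : Prop := ∀ S : ClosedSurface (Fin 29), S.faces = faceSet → GoodStar S p0

/-- the first nine equations of every octahedron hold at the integer point -/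
def SYS_stmt : Prop := NineZero oct0 zZ ∧ NineZero oct1 zZ ∧ NineZero oct2 zZ ∧
  NineZero oct3 zZ ∧ NineZero oct4 zZ ∧ NineZero oct5 zZ ∧ NineZero oct6 zZ

/-- the derivative of the system at the integer point is surjective -/
def RKD_stmt : Prop := ∀ y : Fin 106 → ℝ, ∃ h : Fin 107 → ℝ, ∀ i,
  polQ (sysQ i) (extOne zR) (extZero h) = y i

/-- solutions near the integer point have the same last triangle once the lengths of the sides
of this triangle agree -/
def CL_stmt : Prop := ∃ ε > 0, ∀ z : Fin 107 → ℝ, dist z zR < ε →
  (∀ i, sysMap z i = sysMap zR i) →
  sqd (extOne z) 63 66 = sqd (extOne zR) 63 66 → sqd (extOne z) 63 69 = sqd (extOne zR) 63 69 →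
  sqd (extOne z) 66 69 = sqd (extOne zR) 66 69 →
  ∀ i, 63 ≤ i → i < 72 → extOne z i = extOne zR i

/-- all solutions of the system have the same edge lengths of the seven octahedra: `u`, `v` in
the same triangle `t j`, or `u` in `t j`, `v` in `t (j+1)` not opposite -/
def OCT_stmt : Prop := ∀ z : Fin 107 → ℝ, (∀ i, sysMap z i = sysMap zR i) →
  ∀ u v : ℕ, u < 24 → v < 24 → (u / 3 = v / 3 ∨ (v / 3 = u / 3 + 1 ∧ v % 3 ≠ (u + 1) % 3)) →
    sqd (extOne z) (3 * u) (3 * v) = sqd (extOne zR) (3 * u) (3 * v)

/-- all edges of the surface keep their lengths -/
def EDG_stmt : Prop := ∀ z : Fin 107 → ℝ, (∀ i, sysMap z i = sysMap zR i) →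
  (∀ i, 63 ≤ i → i < 72 → extOne z i = extOne zR i) →
  ∀ s ∈ faceSet, ∀ u ∈ s, ∀ v ∈ s,
    dist (p0 u) (p0 v) = dist (posOf (extOne z) u) (posOf (extOne z) v)

/-- the positions determine all unknowns -/
def UNI_stmt : Prop := ∀ z : Fin 107 → ℝ, (∀ i, sysMap z i = sysMap zR i) →
  (∀ v, posOf (extOne z) v = p0 v) → z = zR

/-- the vertices 24, 25, 26, 27 are affinely independent -/
def TET_stmt : Prop := det3 (p0 25 - p0 24) (p0 26 - p0 24) (p0 27 - p0 24) ≠ 0

/-- Kalai's question has a negative answer -/
def MAIN_stmt : Prop := ∃ (S : ClosedSurface (Fin 29)) (p : Fin 29 → E3),
  IsPolyhedralImmersion S p ∧ Tight S p ∧ ¬ Rigid S p ∧ S.Orientable ∧ S.faces.card = 66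

end Pool.Agent.helper45.TF
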