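import Mathlib

/-!
# Tight closed polyhedral surfaces in Euclidean 3-space and their rigidity: definitions

A closed surface is given by a triangulation (`ClosedSurface`): every edge lies in exactly two
triangles, the triangles around every vertex form one cycle, and the whole is connected.
Its points are the points of the geometric realization (`ClosedSurface.space`, barycentric
coordinates), and a polyhedral map is given by the positions `p v` of the vertices
(`polyMap p`, affine on every triangle).
-/

namespace Pool.Agent.helper45.TF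

open Set Topology

/-- Euclidean three-space. -/
abbrev E3 : Type := EuclideanSpace ℝ (Fin 3)

/-- A closed connected surface, given by a triangulation with vertex set `V`. -/
structure ClosedSurface (V : Type) [Fintype V] [DecidableEq V] where
  /-- the triangles -/
  faces : Finset (Finset V)
  card_eq : ∀ s ∈ faces, s.card = 3
  cover : ∀ v : V, ∃ s ∈ faces, v ∈ s
  /-- every edge lies in exactly two triangles -/
  edge_two : ∀ u v : V, u ≠ v → (∃ s ∈ faces, u ∈ s ∧ v ∈ s) →
    (faces.filter (fun s => u ∈ s ∧ v ∈ s)).card = 2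
  /-- the triangles around a vertex are connected through edges at this vertex -/
  link_conn : ∀ v : V, ∀ s ∈ faces, ∀ t ∈ faces, v ∈ s → v ∈ t →
    Relation.ReflTransGen
      (fun a b : Finset V => a ∈ faces ∧ b ∈ faces ∧ v ∈ a ∧ v ∈ b ∧ (a ∩ b).card = 2) s t
  /-- the surface is connected -/
  conn : ∀ u v : V, Relation.ReflTransGen (fun a b : V => ∃ s ∈ faces, a ∈ s ∧ b ∈ s) u v

variable {V : Type} [Fintype V] [DecidableEq V]

/-- two vertices lie in a common triangle -/
def ClosedSurface.Adj (S : ClosedSurface V) (u v : V) : Prop := ∃ s ∈ S.faces, u ∈ s ∧ v ∈ s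

/-- the closed triangle `s` of the geometric realization, in barycentric coordinates -/
def cell (s : Finset V) : Set (V → ℝ) :=
  {x | (∀ v, 0 ≤ x v) ∧ ∑ v, x v = 1 ∧ ∀ v, v ∉ s → x v = 0}

/-- the surface itself: the geometric realization of the triangulation -/
def ClosedSurface.space (S : ClosedSurface V) : Set (V → ℝ) := {x | ∃ s ∈ S.faces, x ∈ cell s}

/-- the map of the surface to `E3` which is affine on every triangle and sends the vertex `v`
to `p v` -/
noncomputable def polyMap (p : V → E3) (x : V → ℝ) : E3 := ∑ v, x v • p v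

/-- A coherent orientation: a cyclic order of the vertices of every triangle (`next s v` is the
successor of `v` in the triangle `s`) such that two triangles with a common edge induce opposite
directions on it. -/
def ClosedSurface.Orientable (S : ClosedSurface V) : Prop :=
  ∃ next : Finset V → V → V,
    (∀ s ∈ S.faces, ∀ v ∈ s, next s v ∈ s ∧ next s v ≠ v ∧ next s (next s (next s v)) = v) ∧
    ∀ s ∈ S.faces, ∀ t ∈ S.faces, s ≠ t → ∀ u ∈ s, u ∈ t → next s u ∈ t → next t (next s u) = u

/-- `f = polyMap p` is a polyhedral immersion of the surface: it is injective on every (closed)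
triangle and locally injective. -/
def IsPolyhedralImmersion (S : ClosedSurface V) (p : V → E3) : Prop :=
  (∀ s ∈ S.faces, InjOn (polyMap p) (cell s)) ∧
  ∀ x ∈ S.space, ∃ U ∈ 𝓝 x, InjOn (polyMap p) (U ∩ S.space)

/-- the part of the surface which is mapped into `h` -/
def ClosedSurface.pre (S : ClosedSurface V) (p : V → E3) (h : Set E3) : Set (V → ℝ) :=
  {x | x ∈ S.space ∧ polyMap p x ∈ h}

/-- the open and closed half-spaces of `E3` -/
def IsHalfSpace (h : Set E3) : Prop :=
  ∃ a : E3, a ≠ 0 ∧ ∃ c : ℝ, h = {y | inner ℝ a y ≤ c} ∨ h = {y | inner ℝ a y < c}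

/-! ### singular homology with coefficients in `ℤ/2` in dimension one -/

/-- singular 1-simplices of `V → ℝ` -/
abbrev Sing1 (V : Type) : Type := C(unitInterval, V → ℝ)

/-- the standard 2-simplex -/
abbrev D2 : Type := stdSimplex ℝ (Fin 3)

/-- singular 2-simplices of `V → ℝ` -/
abbrev Sing2 (V : Type) : Type := C(D2, V → ℝ)

/-- the affine map from the unit interval to the edge of the standard 2-simplex from vertex `i`
to vertex `j` -/
noncomputable def edgeMap (i j : Fin 3) : C(unitInterval, D2) where
  toFun t := ⟨fun k => (1 - (t : ℝ)) * (if k = i then 1 else 0) + (t : ℝ) * (if k = j then 1 else 0),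
    by
      constructor
      · intro k
        have h0 : 0 ≤ (t : ℝ) := t.2.1
        have h1 : (t : ℝ) ≤ 1 := t.2.2
        show 0 ≤ (1 - (t : ℝ)) * (if k = i then (1 : ℝ) else 0)
          + (t : ℝ) * (if k = j then (1 : ℝ) else 0)
        have h2 : (0 : ℝ) ≤ (if k = i then (1 : ℝ) else 0) := by split_ifs <;> norm_num
        have h3 : (0 : ℝ) ≤ (if k = j then (1 : ℝ) else 0) := by split_ifs <;> norm_num
        have h4 : 0 ≤ 1 - (t : ℝ) := by linarith
        exact add_nonneg (mul_nonneg h4 h2) (mul_nonneg h0 h3)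
      · show ∑ k : Fin 3, ((1 - (t : ℝ)) * (if k = i then (1 : ℝ) else 0)
          + (t : ℝ) * (if k = j then (1 : ℝ) else 0)) = 1
        rw [Finset.sum_add_distrib, ← Finset.mul_sum, ← Finset.mul_sum]
        simp⟩
  continuous_toFun := by
    refine Continuous.subtype_mk ?_ _
    fun_prop

/-- boundary of a singular 1-chain mod 2 -/
noncomputable def bd1 : (Sing1 V →₀ ZMod 2) →ₗ[ZMod 2] ((V → ℝ) →₀ ZMod 2) :=
  Finsupp.lsum (ZMod 2) (fun γ : Sing1 V =>
    (Finsupp.lsingle (γ 0) + Finsupp.lsingle (γ 1) : ZMod 2 →ₗ[ZMod 2] ((V → ℝ) →₀ ZMod 2)))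

/-- boundary of a singular 2-chain mod 2 -/
noncomputable def bd2 : (Sing2 V →₀ ZMod 2) →ₗ[ZMod 2] (Sing1 V →₀ ZMod 2) :=
  Finsupp.lsum (ZMod 2) (fun τ : Sing2 V =>
    (Finsupp.lsingle (τ.comp (edgeMap 0 1)) + Finsupp.lsingle (τ.comp (edgeMap 0 2))
      + Finsupp.lsingle (τ.comp (edgeMap 1 2)) : ZMod 2 →ₗ[ZMod 2] (Sing1 V →₀ ZMod 2)))

/-- the singular 1-chain `c` lies in `X` -/
def In1 (X : Set (V → ℝ)) (c : Sing1 V →₀ ZMod 2) : Prop := ∀ γ ∈ c.support, ∀ t, γ t ∈ X

/-- the singular 2-chain `w` lies in `X` -/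
def In2 (X : Set (V → ℝ)) (w : Sing2 V →₀ ZMod 2) : Prop := ∀ τ ∈ w.support, ∀ x, τ x ∈ X

/-- the 1-chain `c` bounds in `X` -/
def BoundsIn (X : Set (V → ℝ)) (c : Sing1 V →₀ ZMod 2) : Prop := ∃ w, In2 X w ∧ bd2 w = c

/-- every 1-cycle in `X` that bounds in `M` already bounds in `X` -/
def HOneInjective (X M : Set (V → ℝ)) : Prop :=
  ∀ c : Sing1 V →₀ ZMod 2, In1 X c → bd1 c = 0 → BoundsIn M c → BoundsIn X c

/-- `f = polyMap p` is 0-tight: the preimage of every open or closed half-space is connected -/
def ZeroTight (S : ClosedSurface V) (p : V → E3) : Prop :=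
  ∀ h, IsHalfSpace h → IsPreconnected (S.pre p h)

/-- `f = polyMap p` is tight -/
def Tight (S : ClosedSurface V) (p : V → E3) : Prop :=
  ZeroTight S p ∧ ∀ h, IsHalfSpace h → HOneInjective (S.pre p h) S.space

/-- The polyhedral surface is rigid: every continuous deformation `q t` (`t ∈ [0,1]`) through
polyhedral surfaces of the same combinatorial type in which every triangle (hence every edge)
moves by Euclidean motions is given by Euclidean motions of the whole space. -/
def Rigid (S : ClosedSurface V) (p : V → E3) : Prop :=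
  ∀ q : unitInterval → V → E3, Continuous q → q 0 = p →
    (∀ t, IsPolyhedralImmersion S (q t)) →
    (∀ t, ∀ s ∈ S.faces, ∃ g : E3 ≃ᵃⁱ[ℝ] E3, ∀ v ∈ s, g (p v) = q t v) →
    ∀ t, ∃ g : E3 ≃ᵃⁱ[ℝ] E3, ∀ v, g (p v) = q t v

end Pool.Agent.helper45.TF
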