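import Pool.Agent.helper45.TF.Defs

/-!
# Auxiliary definitions and the exact statements of the general modules
(`XX_stmt : Prop`, to be proved as `theorem XX : XX_stmt`)
-/

namespace Pool.Agent.helper45.TF

open Set Topology

/-! ### geometry -/

/-- the determinant of three vectors of `E3` -/
def det3 (a b c : E3) : ℝ :=
  a 0 * (b 1 * c 2 - b 2 * c 1) - a 1 * (b 0 * c 2 - b 2 * c 0) + a 2 * (b 0 * c 1 - b 1 * c 0)

/-- strict general position around every vertex: two triangles with a common edge are not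
coplanar, two triangles with exactly one common vertex `v` are strictly separated by a plane
through `p v` -/
def GoodStar {V : Type} [Fintype V] [DecidableEq V] (S : ClosedSurface V) (p : V → E3) : Prop :=
  (∀ v a b c : V, v ≠ a → v ≠ b → v ≠ c → a ≠ b → a ≠ c → b ≠ c →
    ({v, a, b} : Finset V) ∈ S.faces → ({v, b, c} : Finset V) ∈ S.faces →
    det3 (p a - p v) (p b - p v) (p c - p v) ≠ 0) ∧
  ∀ v : V, ∀ s ∈ S.faces, ∀ t ∈ S.faces, s ∩ t = {v} →
    ∃ N : E3, (∀ w ∈ s, w ≠ v → 0 < inner ℝ N (p w - p v)) ∧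
      ∀ w ∈ t, w ≠ v → inner ℝ N (p w - p v) < 0

/-- good surfaces are immersed: if `f y = f y'` in the open star of `v`, compare
`f y - p v = ∑ y w (p w - p v)` with the same for `y'` -/
def IMM_stmt : Prop := ∀ (V : Type) [Fintype V] [DecidableEq V] (S : ClosedSurface V)
  (p : V → E3), GoodStar S p → IsPolyhedralImmersion S p

/-- being good is an open condition (finitely many strict inequalities, the same `N`) -/
def OPN_stmt : Prop := ∀ (V : Type) [Fintype V] [DecidableEq V] (S : ClosedSurface V)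
  (p : V → E3), GoodStar S p → ∀ᶠ p' in 𝓝 p, GoodStar S p'

/-- `H` is a set of pairwise adjacent vertices and every other vertex has, in every direction,
a strictly lower neighbour -/
def SaddleHull {V : Type} [Fintype V] [DecidableEq V] (S : ClosedSurface V) (p : V → E3)
    (H : Finset V) : Prop :=
  (∀ u ∈ H, ∀ v ∈ H, S.Adj u v) ∧
  ∀ v ∉ H, ∀ a : E3, a ≠ 0 → ∃ w, S.Adj v w ∧ inner ℝ a (p w) < inner ℝ a (p v)

/-- the vertices in every half-space are connected through edges in this half-space -/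
def VertConn {V : Type} [Fintype V] [DecidableEq V] (S : ClosedSurface V) (p : V → E3) : Prop :=
  ∀ h, IsHalfSpace h → ∀ u v, p u ∈ h → p v ∈ h →
    Relation.ReflTransGen (fun a b : V => S.Adj a b ∧ p a ∈ h ∧ p b ∈ h) u v

/-- descend from both vertices to `H` -/
def VC_stmt : Prop := ∀ (V : Type) [Fintype V] [DecidableEq V] (S : ClosedSurface V)
  (p : V → E3) (H : Finset V), SaddleHull S p H → VertConn S p

/-- every point of the preimage is joined inside its triangle to a vertex in `h` -/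
def TZ_stmt : Prop := ∀ (V : Type) [Fintype V] [DecidableEq V] (S : ClosedSurface V)
  (p : V → E3), VertConn S p → ZeroTight S p

/-! ### paths and chains -/

/-- the affine path from `P` to `Q` -/
noncomputable def segPath {V : Type} (P Q : V → ℝ) : Sing1 V where
  toFun t := (1 - (t : ℝ)) • P + (t : ℝ) • Q
  continuous_toFun := by fun_prop

/-- the vertex `v` of the geometric realization -/
def vert {V : Type} [DecidableEq V] (v : V) : V → ℝ := fun w => if w = v then 1 else 0

/-- the affine map `[0,1] → [0,1]` from `a` to `b` -/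
noncomputable def unitSeg (a b : unitInterval) : C(unitInterval, unitInterval) where
  toFun t := ⟨(1 - (t : ℝ)) * a + (t : ℝ) * b, by
    have h1 := t.2.1
    have h2 := t.2.2
    have h3 := a.2.1
    have h4 := a.2.2
    have h5 := b.2.1
    have h6 := b.2.2
    constructor
    · have := mul_nonneg (sub_nonneg.2 h2) h3
      have := mul_nonneg h1 h5
      linarith
    · have := mul_le_mul_of_nonneg_left h4 (sub_nonneg.2 h2)
      have := mul_le_mul_of_nonneg_left h6 h1
      linarith⟩
  continuous_toFun := by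
    refine Continuous.subtype_mk ?_ _
    fun_prop

/-- the point `i / n` of the unit interval -/
noncomputable def gridPt (n i : ℕ) : unitInterval :=
  Set.projIcc (0 : ℝ) 1 zero_le_one ((i : ℝ) / (n : ℝ))

/-- closure properties of `BoundsIn` -/
def BIN_stmt : Prop := ∀ (V : Type) [Fintype V] [DecidableEq V] (X : Set (V → ℝ)),
  BoundsIn X 0 ∧
  (∀ c c' : Sing1 V →₀ ZMod 2, BoundsIn X c → BoundsIn X c' → BoundsIn X (c + c')) ∧
  (∀ (ι : Type) (I : Finset ι) (f : ι → (Sing1 V →₀ ZMod 2)), (∀ i ∈ I, BoundsIn X (f i)) →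
    BoundsIn X (∑ i ∈ I, f i)) ∧
  (∀ (a : ZMod 2) (c : Sing1 V →₀ ZMod 2), BoundsIn X c → BoundsIn X (a • c)) ∧
  ∀ γ : Sing1 V, (∀ t, γ t ∈ X) → BoundsIn X (Finsupp.single γ 1 + Finsupp.single γ 1)

/-- square: bottom + top + left + right bounds (cut the square by its diagonal; each half is the
image of the standard 2-simplex, the diagonal cancels mod 2) -/
def SQ_stmt : Prop := ∀ (V : Type) [Fintype V] [DecidableEq V] (X : Set (V → ℝ))
  (H : C(unitInterval × unitInterval, V → ℝ)), (∀ z, H z ∈ X) →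
  ∀ b t l r : Sing1 V, (∀ s, b s = H (s, 0)) → (∀ s, t s = H (s, 1)) →
    (∀ s, l s = H (0, s)) → (∀ s, r s = H (1, s)) →
    BoundsIn X (Finsupp.single b 1 + Finsupp.single t 1 + Finsupp.single l 1
      + Finsupp.single r 1)

/-- subdivision of a path (2-simplices `γ ∘ (x ↦ x 0 * a + x 1 * b + x 2 * c)`; induction:
`single (γ ∘ unitSeg 0 (s k)) + ∑ i < k` bounds; constant paths bound) -/
def SD_stmt : Prop := ∀ (V : Type) [Fintype V] [DecidableEq V] (X : Set (V → ℝ))
  (γ : Sing1 V), (∀ t, γ t ∈ X) → ∀ (n : ℕ) (s : ℕ → unitInterval), s 0 = 0 → s n = 1 →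
    BoundsIn X (Finsupp.single γ 1
      + ∑ i ∈ Finset.range n, Finsupp.single (γ.comp (unitSeg (s i) (s (i + 1)))) 1)

/-- affine triangle -/
def TR_stmt : Prop := ∀ (V : Type) [Fintype V] [DecidableEq V] (X : Set (V → ℝ))
  (P0 P1 P2 : V → ℝ),
  (∀ a b c : ℝ, 0 ≤ a → 0 ≤ b → 0 ≤ c → a + b + c = 1 → a • P0 + b • P1 + c • P2 ∈ X) →
    BoundsIn X (Finsupp.single (segPath P0 P1) 1 + Finsupp.single (segPath P0 P2) 1
      + Finsupp.single (segPath P1 P2) 1)

/-- a path which is small with respect to the vertex choice `r` is homologous to its simplicial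
approximation (subdivide by SD, straight-line homotopies and SQ; the tracks at interior division
points cancel) -/
def PR_stmt : Prop := ∀ (V : Type) [Fintype V] [DecidableEq V] (S : ClosedSurface V)
  (p : V → E3) (h : Set E3), IsHalfSpace h → ∀ (r : (V → ℝ) → V) (γ : Sing1 V) (n : ℕ), 0 < n →
  (∀ t, γ t ∈ S.pre p h) → (∀ t, p (r (γ t)) ∈ h) →
  (∀ t t' : unitInterval, |(t : ℝ) - t'| ≤ 1 / (n : ℝ) → 0 < γ t (r (γ t'))) →
  BoundsIn (S.pre p h) (Finsupp.single γ 1
    + ∑ i ∈ Finset.range n, Finsupp.single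
        (segPath (vert (r (γ (gridPt n i)))) (vert (r (γ (gridPt n (i + 1)))))) 1
    + Finsupp.single (segPath (γ 0) (vert (r (γ 0)))) 1
    + Finsupp.single (segPath (γ 1) (vert (r (γ 1)))) 1)

/-! ### simplicial chains -/

/-- the simplicial edge `{u,v}` as a 1-chain mod 2 (zero if `u = v`) -/
noncomputable def edgeC {V : Type} [DecidableEq V] (u v : V) : Sym2 V →₀ ZMod 2 :=
  if u = v then 0 else Finsupp.single s(u, v) 1

/-- the sum of the edges of `s` -/
noncomputable def epsC {V : Type} [DecidableEq V] (s : Finset V) : Sym2 V →₀ ZMod 2 :=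
  ∑ e ∈ s.sym2.filter (fun e => ¬ e.IsDiag), Finsupp.single e 1

/-- boundaries of simplicial 2-chains of the subcomplex of triangles in `A` -/
noncomputable def simpB {V : Type} [Fintype V] [DecidableEq V] (S : ClosedSurface V)
    (A : Set V) : Submodule (ZMod 2) (Sym2 V →₀ ZMod 2) :=
  Submodule.span (ZMod 2) {x | ∃ s ∈ S.faces, (∀ v ∈ s, v ∈ A) ∧ x = epsC s}

/-- the simplicial approximation of a path -/
noncomputable def approx {V : Type} [DecidableEq V] (r : (V → ℝ) → V) (n : ℕ) (γ : Sing1 V) :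
    Sym2 V →₀ ZMod 2 :=
  ∑ i ∈ Finset.range n, edgeC (r (γ (gridPt n i))) (r (γ (gridPt n (i + 1))))

/-- mod 2 duality: a simplicial cycle in the full subcomplex on `A` which bounds in the surface
bounds in the subcomplex, if the vertices outside `A` are connected outside `A`
(write it as `∑ c s • epsC s`; around every vertex outside `A` the coefficients of consecutive
triangles agree, so `c` is constant on the triangles that are not in `A`; the sum of all triangles
is a cycle) -/
def DU_stmt : Prop := ∀ (V : Type) [Fintype V] [DecidableEq V] (S : ClosedSurface V)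
  (A : Set V),
  (∀ u v, u ∉ A → v ∉ A →
    Relation.ReflTransGen (fun a b : V => S.Adj a b ∧ a ∉ A ∧ b ∉ A) u v) →
  ∀ x ∈ simpB S Set.univ, (∀ e ∈ x.support, ∀ v ∈ e, v ∈ A) → x ∈ simpB S A

/-- grid identity in a group of exponent 2 -/
def GR_stmt : Prop := ∀ (Q : Type) [AddCommGroup Q] (E : ℕ × ℕ → ℕ × ℕ → Q),
  (∀ x : Q, x + x = 0) → ∀ n : ℕ,
  (∑ i ∈ Finset.range n, ∑ j ∈ Finset.range (n - i),
      (E (i, j) (i + 1, j) + E (i, j) (i, j + 1) + E (i + 1, j) (i, j + 1)))
    + (∑ i ∈ Finset.range (n - 1), ∑ j ∈ Finset.range (n - 1 - i),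
      (E (i + 1, j) (i, j + 1) + E (i + 1, j) (i + 1, j + 1) + E (i, j + 1) (i + 1, j + 1)))
    = (∑ i ∈ Finset.range n, E (i, 0) (i + 1, 0)) + (∑ j ∈ Finset.range n, E (0, j) (0, j + 1))
      + ∑ j ∈ Finset.range n, E (n - j, j) (n - j - 1, j + 1)

/-- the simplicial approximation of the boundary of a small singular 2-simplex is a simplicial
boundary (GR with `E P Q = edgeC (r (τ P)) (r (τ Q))`; the vertices chosen at the corners of a
small triangle lie in one triangle of the surface) -/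
def GT_stmt : Prop := ∀ (V : Type) [Fintype V] [DecidableEq V] (S : ClosedSurface V)
  (r : (V → ℝ) → V) (τ : Sing2 V) (n : ℕ), 0 < n → (∀ x, τ x ∈ S.space) →
  (∀ x y : D2, (∀ k, |(x : Fin 3 → ℝ) k - (y : Fin 3 → ℝ) k| ≤ 1 / (n : ℝ)) →
    0 < τ x (r (τ y))) →
  approx r n (τ.comp (edgeMap 0 1)) + approx r n (τ.comp (edgeMap 0 2))
    + approx r n (τ.comp (edgeMap 1 2)) ∈ simpB S Set.univ

/-- uniform choice of the vertex function and of the subdivision (on the compact image of `c`
choose the vertex in `h` with the largest coordinate, elsewhere the vertex with the largest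
coordinate; uniform continuity) -/
def UN_stmt : Prop := ∀ (V : Type) [Fintype V] [DecidableEq V] (S : ClosedSurface V)
  (p : V → E3) (h : Set E3), IsHalfSpace h → ∀ (c : Sing1 V →₀ ZMod 2) (w : Sing2 V →₀ ZMod 2),
  In1 (S.pre p h) c → In2 S.space w → c ≠ 0 →
  ∃ (r : (V → ℝ) → V) (n : ℕ), 0 < n ∧
    (∀ γ ∈ c.support, ∀ t, p (r (γ t)) ∈ h) ∧
    (∀ γ ∈ c.support, ∀ t t' : unitInterval, |(t : ℝ) - t'| ≤ 1 / (n : ℝ) →
      0 < γ t (r (γ t'))) ∧
    ∀ τ ∈ w.support, ∀ x y : D2,
      (∀ k, |(x : Fin 3 → ℝ) k - (y : Fin 3 → ℝ) k| ≤ 1 / (n : ℝ)) → 0 < τ x (r (τ y))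

/-- the affine realization of simplicial chains (`Ψ (single e 1)` = the affine path between the
two vertices of `e.out`; the reversed path is homologous, constant paths bound, TR) -/
def PSI_stmt : Prop := ∀ (V : Type) [Fintype V] [DecidableEq V] (S : ClosedSurface V)
  (p : V → E3) (h : Set E3), IsHalfSpace h →
  ∃ Ψ : (Sym2 V →₀ ZMod 2) →ₗ[ZMod 2] (Sing1 V →₀ ZMod 2),
    (∀ u v, S.Adj u v → p u ∈ h → p v ∈ h →
      BoundsIn (S.pre p h) (Finsupp.single (segPath (vert u) (vert v)) 1 + Ψ (edgeC u v))) ∧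
    ∀ x ∈ simpB S {v | p v ∈ h}, BoundsIn (S.pre p h) (Ψ x)

/-- the homological part of tightness (PR + PSI + GT + DU + UN) -/
def HM_stmt : Prop := ∀ (V : Type) [Fintype V] [DecidableEq V] (S : ClosedSurface V)
  (p : V → E3), VertConn S p → ∀ h, IsHalfSpace h → HOneInjective (S.pre p h) S.space

/-! ### analysis and linear algebra -/

/-- a curve in the level set of a map with surjective derivative -/
def IFT_stmt : Prop := ∀ (m n : ℕ) (F : (Fin n → ℝ) → (Fin m → ℝ))
  (F' : (Fin n → ℝ) →L[ℝ] (Fin m → ℝ)) (z0 : Fin n → ℝ), m < n → HasStrictFDerivAt F F' z0 →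
  Function.Surjective F' → ∀ ε > 0, ∃ γ : unitInterval → (Fin n → ℝ), Continuous γ ∧
    γ 0 = z0 ∧ γ 1 ≠ z0 ∧ ∀ t, F (γ t) = F z0 ∧ dist (γ t) z0 < ε

/-- quadratic forms: the list of the monomials `(c, i, j)` stands for `∑ c * z i * z j` -/
abbrev QForm : Type := List (ℤ × ℕ × ℕ)

/-- value of a quadratic form -/
def evQ {R : Type} [CommRing R] (q : QForm) (z : ℕ → R) : R :=
  (q.map fun m => (m.1 : R) * z m.2.1 * z m.2.2).sum

/-- polarization of a quadratic form -/
def polQ {R : Type} [CommRing R] (q : QForm) (z h : ℕ → R) : R :=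
  (q.map fun m => (m.1 : R) * (z m.2.1 * h m.2.2 + h m.2.1 * z m.2.2)).sum

/-- extension by `1` -/
def extOne {R : Type} [CommRing R] {n : ℕ} (z : Fin n → R) : ℕ → R :=
  fun i => if h : i < n then z ⟨i, h⟩ else 1

/-- extension by `0` -/
def extZero {R : Type} [CommRing R] {n : ℕ} (z : Fin n → R) : ℕ → R :=
  fun i => if h : i < n then z ⟨i, h⟩ else 0

/-- strict derivative of a quadratic system -/
def DER_stmt : Prop := ∀ (m n : ℕ) (Q : Fin m → QForm) (z0 : Fin n → ℝ),
  ∃ F' : (Fin n → ℝ) →L[ℝ] (Fin m → ℝ),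
    HasStrictFDerivAt (fun (z : Fin n → ℝ) (i : Fin m) => evQ (Q i) (extOne z)) F' z0 ∧
    ∀ h i, F' h i = polQ (Q i) (extOne z0) (extZero h)

/-- an integer matrix with a right inverse modulo some `k > 1` is surjective over `ℝ`
(the determinant of `J * R` is `1` mod `k`, hence not `0`) -/
def RK_stmt : Prop := ∀ (m n k : ℕ) (J : Matrix (Fin m) (Fin n) ℤ)
  (R : Matrix (Fin n) (Fin m) ℤ), 1 < k →
  (∀ i j, (k : ℤ) ∣ (J * R) i j - (if i = j then 1 else 0)) →
  ∀ y : Fin m → ℝ, ∃ h : Fin n → ℝ, ∀ i, ∑ j, (J i j : ℝ) * h j = y i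

/-- squared distance of the points with coordinates `z a, z (a+1), z (a+2)` and
`z b, z (b+1), z (b+2)` -/
def sqd {R : Type} [CommRing R] (z : ℕ → R) (a b : ℕ) : R :=
  (z a - z b) ^ 2 + (z (a + 1) - z (b + 1)) ^ 2 + (z (a + 2) - z (b + 2)) ^ 2

/-- `z b - z a + z l * z d` -/
def qPar (a b l d : ℕ) : QForm := [(1, b, 107), (-1, a, 107), (1, l, d)]

/-- `(z a + z b) - (z c + z e) - z l * z d` -/
def qParL (a b c e l d : ℕ) : QForm :=
  [(1, a, 107), (1, b, 107), (-1, c, 107), (-1, e, 107), (-1, l, d)]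

/-- scalar product of the vector at `d` with (point `a`) + (point `b`) - 2 (point `c`) -/
def qMid (d a b c : ℕ) : QForm :=
  [(1, d, a), (1, d, b), (-2, d, c), (1, d + 1, a + 1), (1, d + 1, b + 1), (-2, d + 1, c + 1),
    (1, d + 2, a + 2), (1, d + 2, b + 2), (-2, d + 2, c + 2)]

/-- scalar product of the vector at `d` with (point `a`) - (point `b`) -/
def qPerp (d a b : ℕ) : QForm :=
  [(1, d, a), (-1, d, b), (1, d + 1, a + 1), (-1, d + 1, b + 1), (1, d + 2, a + 2),
    (-1, d + 2, b + 2)]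

/-- squared distance of the points `a` and `b` -/
def qLen (a b : ℕ) : QForm :=
  [(1, a, a), (-2, a, b), (1, b, b), (1, a + 1, a + 1), (-2, a + 1, b + 1), (1, b + 1, b + 1),
    (1, a + 2, a + 2), (-2, a + 2, b + 2), (1, b + 2, b + 2)]

/-- the coordinate `i` -/
def qFix (i : ℕ) : QForm := [(1, i, 107)]

/-- the 12 equations of a plane-symmetric octahedron: opposite vertices `a, a'`, `b, b'`, `c, c'`;
the reflection in the plane through `c, c'` with normal vector at `d` exchanges `a, a'` and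
`b, b'`, `l, l+1` are the multipliers -/
def blockP (a b c a' b' c' l d : ℕ) : List QForm :=
  [qPar a a' l d, qPar (a + 1) (a' + 1) l (d + 1), qPar (a + 2) (a' + 2) l (d + 2),
   qPar b b' (l + 1) d, qPar (b + 1) (b' + 1) (l + 1) (d + 1),
   qPar (b + 2) (b' + 2) (l + 1) (d + 2),
   qMid d a a' c, qMid d b b' c, qPerp d c' c, qLen a b', qLen a c', qLen b c']

/-- the 12 equations of a line-symmetric octahedron: opposite vertices `a, a'`, `b, b'`, `c, c'`;
the half-turn about a line with direction vector at `d` exchanges the opposite vertices -/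
def blockL (a b c a' b' c' l d : ℕ) : List QForm :=
  [qParL b b' a a' l d, qParL (b + 1) (b' + 1) (a + 1) (a' + 1) l (d + 1),
   qParL (b + 2) (b' + 2) (a + 2) (a' + 2) l (d + 2),
   qParL c c' a a' (l + 1) d, qParL (c + 1) (c' + 1) (a + 1) (a' + 1) (l + 1) (d + 1),
   qParL (c + 2) (c' + 2) (a + 2) (a' + 2) (l + 1) (d + 2),
   qPerp d a a', qPerp d b b', qPerp d c c', qLen a b', qLen a c', qLen b c']

/-- the first nine equations of a block hold -/
def NineZero {R : Type} [CommRing R] (B : List QForm) (z : ℕ → R) : Prop :=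
  ∀ q ∈ B.take 9, evQ q z = 0

/-- edge lengths of a plane-symmetric octahedron -/
def LENP_stmt : Prop := ∀ (z w : ℕ → ℝ) (a b c a' b' c' l d : ℕ), z 107 = 1 → w 107 = 1 →
  NineZero (blockP a b c a' b' c' l d) z → NineZero (blockP a b c a' b' c' l d) w →
  (∀ q ∈ blockP a b c a' b' c' l d, evQ q z = evQ q w) →
  sqd z a b = sqd w a b → sqd z a c = sqd w a c → sqd z b c = sqd w b c →
  sqd z a' b' = sqd w a' b' ∧ sqd z a' c' = sqd w a' c' ∧ sqd z b' c' = sqd w b' c' ∧
  sqd z a b' = sqd w a b' ∧ sqd z a c' = sqd w a c' ∧ sqd z b a' = sqd w b a' ∧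
  sqd z b c' = sqd w b c' ∧ sqd z c a' = sqd w c a' ∧ sqd z c b' = sqd w c b'

/-- edge lengths of a line-symmetric octahedron -/
def LENL_stmt : Prop := ∀ (z w : ℕ → ℝ) (a b c a' b' c' l d : ℕ), z 107 = 1 → w 107 = 1 →
  NineZero (blockL a b c a' b' c' l d) z → NineZero (blockL a b c a' b' c' l d) w →
  (∀ q ∈ blockL a b c a' b' c' l d, evQ q z = evQ q w) →
  sqd z a b = sqd w a b → sqd z a c = sqd w a c → sqd z b c = sqd w b c →
  sqd z a' b' = sqd w a' b' ∧ sqd z a' c' = sqd w a' c' ∧ sqd z b' c' = sqd w b' c' ∧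
  sqd z a b' = sqd w a b' ∧ sqd z a c' = sqd w a c' ∧ sqd z b a' = sqd w b a' ∧
  sqd z b c' = sqd w b c' ∧ sqd z c a' = sqd w c a' ∧ sqd z c b' = sqd w c b'

/-- congruent triangles are related by a Euclidean motion -/
def CONG_stmt : Prop := ∀ a b c a' b' c' : E3, dist a b = dist a' b' → dist a c = dist a' c' →
  dist b c = dist b' c' → ∃ g : E3 ≃ᵃⁱ[ℝ] E3, g a = a' ∧ g b = b' ∧ g c = c'

/-- a Euclidean motion fixing four affinely independent points is the identity -/
def FIX_stmt : Prop := ∀ (g : E3 ≃ᵃⁱ[ℝ] E3) (a b c d : E3),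
  det3 (b - a) (c - a) (d - a) ≠ 0 → g a = a → g b = b → g c = c → g d = d → ∀ x, g x = x

end Pool.Agent.helper45.TF
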